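import Mathlib
import Pool.Agent.W84.G.Out

/-!
All four sign patterns of the Liouville function at the two factors of `a n^2 + b n + c = d d'`, for
every integer quadratic polynomial of positive nonsquare discriminant, with `n` in any given residue
class.

Method: the Matomaki-Radziwill theorem for the angles of the elements of a quadratic order in a ray
class (imaginary and real), at all nonzero frequencies; it gives a positive proportion of sign
changes between neighbours `x`, `y` of this class. An element `v` with `det (v, x) = 1` and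
`det (v, y) = p`, `p` a prime divisor of the norm of `y` in a suitable class, then yields two
factorisations, `N(v) N(x)` and `(N(v)/p) (N(y)/p)`, of values of the polynomial, one of which has
the prescribed signs.
-/

set_option autoImplicit false

/-- For all integers `a > 0`, `b`, `c` such that `b^2 - 4 a c` is positive and not a square, and
every residue class `r mod q` there is `S` such that for all signs `e₁`, `e₂`: for
every `ε > 0` and all large `N` at least `N / (log N)^(2 log 2 + ε)` integers `1 ≤ n ≤ N`,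
`n ≡ r mod q`, have a factorisation `a n ^ 2 + b n + c = d d'` with `d, d' ≤ S n`, `λ(d) = e₁`,
`λ(d') = e₂`, and no square divisor larger than `S^2`. Moreover there is `κ > 0` such that for all
large `N` at least `κ N` pairs `(d, d')` of positive integers `≤ N` have these signs and a product
`a n ^ 2 + b n + c` with `n ≥ 1`, `n ≡ r mod q`, without square divisors larger than `S^2`. -/
theorem Pool.Agent.Results.MP_51e72e_nt.FourSignPatterns.result (a b c : ℤ) (ha : 0 < a)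
    (_hD : 0 < b ^ 2 - 4 * a * c) (hsq : ¬ IsSquare (b ^ 2 - 4 * a * c)) (q r : ℕ) (hq : 1 ≤ q) :
    ∃ S : ℕ, ∀ e₁ e₂ : ℤ, (e₁ = 1 ∨ e₁ = -1) → (e₂ = 1 ∨ e₂ = -1) →
    (∀ ε : ℝ, 0 < ε → ∃ N₀ : ℕ, ∀ N : ℕ, N₀ ≤ N → (N : ℝ) / Real.log N ^ (2 * Real.log 2 + ε) ≤
      (Set.ncard {n : ℕ | 1 ≤ n ∧ n ≤ N ∧ n ≡ r [MOD q] ∧
        ∃ d d' : ℕ, (d : ℤ) * d' = a * (n : ℤ) ^ 2 + b * n + c ∧
        d ≤ S * n ∧ d' ≤ S * n ∧ (∀ k : ℕ, k ^ 2 ∣ d * d' → k ≤ S) ∧
        (-1 : ℤ) ^ ArithmeticFunction.cardFactors d = e₁ ∧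
        (-1 : ℤ) ^ ArithmeticFunction.cardFactors d' = e₂} : ℝ)) ∧
    ∃ κ : ℝ, 0 < κ ∧ ∃ N₀ : ℕ, ∀ N : ℕ, N₀ ≤ N → κ * N ≤
      (Set.ncard {p : ℕ × ℕ | 1 ≤ p.1 ∧ p.1 ≤ N ∧ 1 ≤ p.2 ∧ p.2 ≤ N ∧
        (∃ n : ℕ, 1 ≤ n ∧ n ≡ r [MOD q] ∧ (p.1 : ℤ) * p.2 = a * (n : ℤ) ^ 2 + b * n + c) ∧
        (∀ k : ℕ, k ^ 2 ∣ p.1 * p.2 → k ≤ S) ∧
        (-1 : ℤ) ^ ArithmeticFunction.cardFactors p.1 = e₁ ∧
        (-1 : ℤ) ^ ArithmeticFunction.cardFactors p.2 = e₂} : ℝ) :=
  Pool.Agent.W84.G.finalP (fun _ => rfl) ha hsq r hq
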