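import Pool.Agent.W81.FH.Box
import Pool.Agent.W81.FX.FullX

/-!
Schinzel's asymptotic formula for almost all integer polynomials of degree at most `d` and height
at most `H` (all `d + 1` coefficients vary), simultaneously for all `x` with
`(log H)^B ≤ x ≤ H / (log H)^B`.
-/

set_option autoImplicit false

namespace Pool.Agent.Results.MP_51e72e_nt.FullHeightBox

open Finset Polynomial Filter

/-- `ω_f(p)`: the number of residue classes modulo `p` in which `f` vanishes modulo `p` -/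
noncomputable def omega (f : ℤ[X]) (p : ℕ) : ℕ :=
  ((range p).filter (fun k : ℕ => (p : ℤ) ∣ f.eval (k : ℤ))).card

/-- the Euler product `∏_{p ≤ z} (1 - ω_f(p) / p) / (1 - 1 / p)` -/
noncomputable def eulerProd (z : ℕ) (f : ℤ[X]) : ℝ :=
  ∏ p ∈ (Icc 1 z).filter Nat.Prime, (1 - (omega f p : ℝ) / p) / (1 - 1 / (p : ℝ))

/-- the number of `n ≤ x`, `n ≥ 1`, with `|f(n)|` prime -/
noncomputable def absPrimeCount (f : ℤ[X]) (x : ℕ) : ℝ :=
  (((Icc 1 x).filter (fun n : ℕ => (f.eval (n : ℤ)).natAbs.Prime)).card : ℝ)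

/-- `∑ 1 / log |f(n)|` over `1 ≤ n ≤ x` with `|f(n)| ≥ 2` -/
noncomputable def absLogSum (f : ℤ[X]) (x : ℕ) : ℝ :=
  ∑ n ∈ (Icc 1 x).filter (fun n : ℕ => 2 ≤ |f.eval (n : ℤ)|),
    1 / Real.log |((f.eval (n : ℤ) : ℤ) : ℝ)|

/-- the polynomial `c₀ + c₁ X + ... + c_d X^d` -/
noncomputable def pol {d : ℕ} (c : Fin (d + 1) → ℤ) : ℤ[X] :=
  ∑ i : Fin (d + 1), C (c i) * X ^ (i : ℕ)

open Classical in
/-- **Schinzel's asymptotic formula for almost all polynomials of height at most `H`.** Let `d ≥ 1`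
and `U` be given, let `E` be large in terms of `d`, `U`, and let `B` and then `H` be large in terms
of these and `E`. Put `z = ⌊(log H)^E⌋`. Among the `(2H + 1)^(d+1)` integer polynomials
`f = c₀ + c₁ X + ... + c_d X^d` with all `|c_i| ≤ H`, all those without fixed prime divisor
`p ≤ z`, with at most `(2H + 1)^(d+1) / (log H)^U` exceptions, satisfy, for all `x` with
`(log H)^B ≤ x ≤ H / (log H)^B` simultaneously,
`#{n ≤ x : |f(n)| prime} = (1 + θ (log H)^(-U)) eulerProd z f ∑_{n ≤ x} 1 / log |f(n)|`,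
`|θ| ≤ 1`. -/
theorem result (d : ℕ) (hd : 1 ≤ d) (U : ℕ) : ∃ E' : ℕ, ∀ E : ℕ, E' ≤ E → ∃ B H0 : ℕ,
    ∀ H : ℕ, H0 ≤ H →
    (((Fintype.piFinset (fun _ : Fin (d + 1) => Icc (-(H : ℤ)) (H : ℤ))).filter (fun c =>
      (∀ p : ℕ, p.Prime → p ≤ ⌊Real.log H ^ E⌋₊ → ∃ n : ℤ, ¬ (p : ℤ) ∣ (pol c).eval n) ∧
      ∃ x : ℕ, Real.log H ^ B ≤ x ∧ (x : ℝ) * Real.log H ^ B ≤ H ∧
        eulerProd ⌊Real.log H ^ E⌋₊ (pol c) * absLogSum (pol c) x / Real.log H ^ U <
          |absPrimeCount (pol c) x -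
            eulerProd ⌊Real.log H ^ E⌋₊ (pol c) * absLogSum (pol c) x|)).card : ℝ) ≤
      (2 * (H : ℝ) + 1) ^ (d + 1) / Real.log H ^ U := by
  obtain ⟨E', h⟩ := Pool.Agent.W81.FH.box_count d hd (fun B H => Real.log H ^ B)
    ⟨fun B B' H hB hH => by
      apply pow_le_pow_right₀ _ hB
      have h1 : Real.exp 1 ≤ H := by
        have h2 : Real.exp 1 ≤ 3 := by linarith [Real.exp_one_lt_d9]
        have h3 : (3:ℝ) ≤ H := by exact_mod_cast hH
        linarith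
      rw [Real.le_log_iff_exp_le (lt_of_lt_of_le (Real.exp_pos 1) h1)]
      exact h1, fun m => ⟨m, 0, fun H _ => le_rfl⟩⟩
    (fun U => Pool.Agent.W81.FX.mean_fullS d hd U) U
  refine ⟨E', fun E hE => ?_⟩
  obtain ⟨B0, hB⟩ := h E hE
  obtain ⟨H0, hH⟩ := hB B0 le_rfl
  refine ⟨B0, H0, fun H hHH => ?_⟩
  refine le_trans (le_of_eq ?_) (hH H hHH)
  rw [Nat.cast_inj]
  apply congrArg Finset.card
  unfold Pool.Agent.W81.FH.hbox
  apply filter_congr
  intro c _
  exact Iff.rfl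

end Pool.Agent.Results.MP_51e72e_nt.FullHeightBox
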