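import Mathlib
import Pool.Agent.W218.LF.Main2

/-!
Quantitative Hypothesis H on average over the linear coefficients. All coefficients of `k` integer
polynomials `g_1, ..., g_k` of degree at most `d` are given, and only the linear coefficients are
moved: `f_i = g_i + b_i X` with `B < b_i ≤ 2B`; the argument `t` runs over an arbitrary dense subset
`T` of `[1, x]`, where `x` may be as large as `B / (log B)^K`. Since `f_i(t) = p` means that
`p ≡ g_i(0) (mod t)` with complementary divisor depending on `b_i`, the first moment over `b` comes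
from the Bombieri-Vinogradov theorem at the sharp level, with the exact constant, and the second
moment from the sieve for pairs of linear forms in `b_i`.
-/

set_option autoImplicit false

namespace Pool.Agent.Results.MP_51e72e_nt.LinearCoefficients

open Finset Polynomial

/-- the number of `t ∈ T` for which all `f_i(t)` are (positive) primes -/
noncomputable def primeCount {k : ℕ} (f : Fin k → ℤ[X]) (T : Finset ℕ) : ℕ :=
  (T.filter (fun t : ℕ => ∀ i, ((f i).eval (t : ℤ)).toNat.Prime)).card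

/-- the number of `t ∈ T` for which no `f_i(t)` has a prime factor `p ≤ z` -/
noncomputable def roughCount (z : ℕ) {k : ℕ} (f : Fin k → ℤ[X]) (T : Finset ℕ) : ℕ :=
  (T.filter (fun t : ℕ => ∀ i, ∀ p ≤ z, p.Prime → ¬ ((p : ℤ) ∣ (f i).eval (t : ℤ)))).card

/-- the product `∏_{p ≤ z} (1 - 1/p)` -/
noncomputable def mertensProd (z : ℕ) : ℝ :=
  ∏ p ∈ (Icc 1 z).filter Nat.Prime, (1 - 1 / (p : ℝ))

/-- **Quantitative Hypothesis H on average over the linear coefficients.** For every `k` there is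
`K` such that for all `d`, `δ > 0` and `θ < 1` there are `η > 0` and `B0` with the following
property for all `B ≥ B0` and all `z` with `∏_{p ≤ z} p ≤ η B`. Let `g_1, ..., g_k` be integer
polynomials of degree at most `d` whose constant terms `c_i` satisfy `c_i ≠ 0`, `|c_i| ≤ B`,
`φ(|c_i|) ≥ δ |c_i|`; let `(log B)^k ≤ x` and `x (log B)^K ≤ B`, let the other coefficients satisfy
`∑_{j ≥ 1} |g_{i,j}| x^(j-1) ≤ B`, and let `T` be any set of at least `δ x` positive integers
`t ≤ x` prime to all `c_i`. Then for at least `η B^k` of the `k`-tuples `(b_1, ..., b_k)` in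
`(B, 2B]^k` the number of `t ∈ T` with all `f_i(t) = g_i(t) + b_i t` prime is at least `θ` times the
expected number `#{t ∈ T : no f_i(t) has a prime factor ≤ z} / (∏_{p ≤ z} (1 - 1/p) log (B x))^k`,
and it is at least `η x / (log B)^k`. -/
theorem result (k : ℕ) (hk : 1 ≤ k) : ∃ K : ℕ, ∀ d : ℕ, 1 ≤ d → ∀ δ : ℝ, 0 < δ → ∀ θ : ℝ, θ < 1 →
    ∃ η : ℝ, 0 < η ∧ ∃ B0 : ℕ, ∀ B : ℕ, B0 ≤ B →
    ∀ z : ℕ, ((∏ p ∈ (Icc 1 z).filter Nat.Prime, p : ℕ) : ℝ) ≤ η * B →
    ∀ (x : ℕ) (g : Fin k → ℤ[X]) (T : Finset ℕ), (∀ i, (g i).natDegree ≤ d) →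
    (∀ i, (g i).coeff 0 ≠ 0 ∧ ((g i).coeff 0).natAbs ≤ B ∧
      δ * ((g i).coeff 0).natAbs ≤ Nat.totient ((g i).coeff 0).natAbs) →
    (∀ i, ∑ j ∈ Icc 1 d, |(((g i).coeff j : ℤ) : ℝ)| * (x : ℝ) ^ (j - 1) ≤ B) →
    Real.log B ^ k ≤ x → x * Real.log B ^ K ≤ B → T ⊆ Icc 1 x →
    (∀ t ∈ T, ∀ i, Nat.Coprime t ((g i).coeff 0).natAbs) → δ * x ≤ T.card →
    η * B ^ k ≤ (((Fintype.piFinset (fun _ : Fin k => Ioc B (2 * B))).filter (fun b =>
      θ * (roughCount z (fun i => g i + C (b i : ℤ) * X) T / mertensProd z ^ k) /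
        Real.log (B * x) ^ k ≤ primeCount (fun i => g i + C (b i : ℤ) * X) T ∧
      η * x / Real.log B ^ k ≤ primeCount (fun i => g i + C (b i : ℤ) * X) T)).card : ℝ) := by
  obtain ⟨K, h⟩ := Pool.Agent.W218.LF.main2 k hk
  refine ⟨K, fun d hd δ hδ θ hθ => ?_⟩
  obtain ⟨η, hη, B0, h1⟩ := h d hd δ hδ θ hθ
  refine ⟨η, hη, B0, fun B hB z hz x g T hg hc hA hx hxB hT hTc hTcard => ?_⟩
  have h2 := h1 B hB z hz x g T hg hc hA hx hxB hT hTc hTcard
  have e1 : ∀ b : Fin k → ℕ, primeCount (fun i => g i + C (b i : ℤ) * X) T =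
      Pool.Agent.W218.LF.primeT g b T := by
    intro b
    unfold primeCount Pool.Agent.W218.LF.primeT
    simp only [eval_add, eval_mul, eval_C, eval_X]
  have e2 : ∀ b : Fin k → ℕ, roughCount z (fun i => g i + C (b i : ℤ) * X) T =
      Pool.Agent.W218.LF.roughT z g b T := by
    intro b
    unfold roughCount Pool.Agent.W218.LF.roughT
    simp only [eval_add, eval_mul, eval_C, eval_X]
  simp only [e1, e2]
  exact h2

end Pool.Agent.Results.MP_51e72e_nt.LinearCoefficients
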