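import Mathlib
import Pool.Agent.W78.GS.Fin

/-!
For every monic quadratic polynomial `f` of nonsquare discriminant and every set `S` of primes: if
some value of `f` has a squarefree part with an odd number of prime factors in `S`, then both
parities of this number occur often among the values of `f`. In particular (`S` the set of all
primes) both parities of the number of prime factors occur often.

Method: the Matomaki-Radziwill theorem for the angles (hyperbolic angles) of the elements of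
quadratic orders, with the function `(-1)^(number of prime factors in S)` of the norm, gives a
positive proportion of sign changes among the pairs `v, u` with `N(v) N(u) = f(n)`; squares are
removed by a resolution process for the pairs `(d, d')` with `d d' = f(n)`.
-/

set_option autoImplicit false

namespace Pool.Agent.Results.MP_51e72e_nt.MonicQuadraticParities

/-- `m` is squarefree and the number of primes of `S` dividing `m` is congruent to `r` modulo `2` -/
def Par (S : Set ℕ) (r : ℕ) (m : ℕ) : Prop :=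
  Squarefree m ∧ Set.ncard {p : ℕ | p.Prime ∧ p ∣ m ∧ p ∈ S} % 2 = r

/-- many values `x^2+tx+c` have the form `a^2 m` with `1 ≤ a ≤ B` and `Par S r m`: at least
`N / (log N)^(2 log 2 + ε)` integers `1 ≤ n ≤ N` for every `ε > 0` and all large `N`, and at least
`κ N` products `d d'`, `d, d' ≤ N`, with some `κ > 0` and all large `N` -/
def Many (t c : ℤ) (B : ℕ) (S : Set ℕ) (r : ℕ) : Prop :=
  (∀ ε : ℝ, 0 < ε → ∃ N₀ : ℕ, ∀ N : ℕ, N₀ ≤ N →
    (N : ℝ) / Real.log N ^ (2 * Real.log 2 + ε) ≤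
      (Set.ncard {n : ℕ | 1 ≤ n ∧ n ≤ N ∧ ∃ a m : ℕ, 1 ≤ a ∧ a ≤ B ∧
        (n : ℤ) ^ 2 + t * n + c = a ^ 2 * m ∧ Par S r m} : ℝ)) ∧
  ∃ κ : ℝ, 0 < κ ∧ ∃ N₀ : ℕ, ∀ N : ℕ, N₀ ≤ N → κ * N ≤
    (Set.ncard {q : ℕ × ℕ | 1 ≤ q.1 ∧ q.1 ≤ N ∧ 1 ≤ q.2 ∧ q.2 ≤ N ∧
      (∃ n : ℤ, (q.1 : ℤ) * q.2 = n ^ 2 + t * n + c) ∧
      ∃ a m : ℕ, 1 ≤ a ∧ a ≤ B ∧ q.1 * q.2 = a ^ 2 * m ∧ Par S r m} : ℝ)

open Pool.Agent.W78.GS in
lemma many_of {t c : ℤ} {B : ℕ} {S : Set ℕ} {r : ℕ}
    (h : Con t c (fun m => ∃ a b : ℕ, 1 ≤ a ∧ a ≤ B ∧ m = a ^ 2 * b ∧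
      Pool.Agent.W78.GS.Par S r b)) : Many t c B S r := by
  obtain ⟨h1, κ, hκ, h2⟩ := h
  refine ⟨fun ε hε => ?_, κ, hκ, ?_⟩
  · obtain ⟨N₀, h⟩ := h1 ε hε
    refine ⟨N₀, fun N hN => (h N hN).trans (le_of_eq ?_)⟩
    congr 2
    ext n
    refine and_congr_right fun _ => and_congr_right fun _ => ?_
    constructor
    · rintro ⟨m, hm, a, b, h3, h4, h5, h6⟩
      exact ⟨a, b, h3, h4, by rw [hm, h5]; push_cast; ring, h6⟩
    · rintro ⟨a, b, h3, h4, h5, h6⟩
      exact ⟨a ^ 2 * b, by rw [h5]; push_cast; ring, a, b, h3, h4, rfl, h6⟩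
  · obtain ⟨N₀, h⟩ := h2
    exact ⟨N₀, fun N hN => h N hN⟩

open Pool.Agent.W78.GS in
/-- Let `f = x^2+tx+c` have nonsquare discriminant and let `S` be the set of all primes or a set of
primes such that some value of `f` is `a^2 m` with `m` squarefree with an odd number of prime factors
in `S`. Then there is `B` such that for both `r = 0` and `r = 1` many values of `f` are `a^2 m` with
`1 ≤ a ≤ B`, `m` squarefree, the number of prime factors of `m` in `S` congruent to `r` modulo `2`.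
One can take `B = 1` if no value of `f` is divisible by `4` or by the square of a prime dividing the
discriminant. -/
theorem result (t c : ℤ) (hns : ¬ IsSquare (t ^ 2 - 4 * c)) (S : Set ℕ)
    (hS : S = Set.univ ∨ ∃ (n : ℤ) (a m : ℕ), 1 ≤ a ∧ n ^ 2 + t * n + c = a ^ 2 * m ∧ Par S 1 m) :
    ∃ B : ℕ, ((∀ l : ℕ, l.Prime → (l : ℤ) ∣ 2 * (t ^ 2 - 4 * c) →
        ∀ n : ℤ, ¬ (l : ℤ) ^ 2 ∣ n ^ 2 + t * n + c) → B = 1) ∧
      ∀ r : ℕ, r < 2 → Many t c B S r := by
  have hval : Val (gS S) t c := by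
    rcases hS with rfl | ⟨n, a, m, ha, h1, h2⟩
    · exact val_univ hns
    · exact val_odd (m := a ^ 2 * m) (by omega) h2 rfl (n := n) (by rw [h1]; push_cast; ring)
  by_cases hG : ∀ l : ℕ, l.Prime → (l : ℤ) ∣ 2 * (t ^ 2 - 4 * c) →
        ∀ n : ℤ, ¬ (l : ℤ) ^ 2 ∣ n ^ 2 + t * n + c
  · refine ⟨1, fun _ => rfl, fun r hr => many_of ?_⟩
    have h := par_good (t := t) (c := c) ⟨hns, hG⟩ S hval r hr
    have e : (fun m : ℕ => ∃ a b : ℕ, 1 ≤ a ∧ a ≤ 1 ∧ m = a ^ 2 * b ∧
        Pool.Agent.W78.GS.Par S r b) = Pool.Agent.W78.GS.Par S r := by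
      funext m
      refine propext ⟨?_, fun hm => ⟨1, m, le_rfl, le_rfl, by ring, hm⟩⟩
      rintro ⟨a, b, h3, h4, h5, h6⟩
      have : a = 1 := le_antisymm h4 h3
      rw [h5, this, one_pow, one_mul]
      exact h6
    rw [e]
    exact h
  · obtain ⟨B, hB⟩ := par_bnd hns S hval
    exact ⟨B, fun h => absurd h hG, fun r hr => many_of (hB r hr)⟩

end Pool.Agent.Results.MP_51e72e_nt.MonicQuadraticParities
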